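import Pool.Agent.R884.Circle.Main

set_option autoImplicit false

/-!
# The unit circle meets `C × C` in infinitely many points

`C` is the middle-third Cantor set (Mathlib's `cantorSet`).
-/

namespace Pool.Agent.Results.MP_54f706_an.CircleCantorInfinite

/-- **Main theorem.** The set `E` of the points `(x,y)` with `x, y` in the middle-third Cantor set
and `x ^ 2 + y ^ 2 = 1` is infinite. -/
theorem result :
    {z : ℝ × ℝ | z.1 ∈ cantorSet ∧ z.2 ∈ cantorSet ∧ z.1 ^ 2 + z.2 ^ 2 = 1}.Infinite :=
  Pool.Agent.R884.Circle.main

end Pool.Agent.Results.MP_54f706_an.CircleCantorInfinite
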